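import Pool.Agent.TH237.CH.Rate

/-!
Chamberland's real extension `f` of the `3x+1` map: every measurable set which is completely
invariant on `(0,∞)`, in particular the basin of every attracting cycle, fills the unit intervals
`[m, m+1)` up to a limiting proportion with an explicit power error, the same for all these sets.
-/

set_option autoImplicit false

namespace Pool.Agent.Results.MP_a247fa_nt.BasinPowerRate

open Filter Topology MeasureTheory

/-- Chamberland's map. -/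
noncomputable def f (x : ℝ) : ℝ := x + 1 / 4 - (2 * x + 1) / 4 * Real.cos (Real.pi * x)

/-- Measurable sets that are completely invariant under `f` on `(0,∞)`. -/
def Invariant (B : Set ℝ) : Prop := MeasurableSet B ∧ ∀ x : ℝ, 0 < x → (x ∈ B ↔ f x ∈ B)

/-- The measure of `B ∩ [m, m+1)`. -/
noncomputable def share (B : Set ℝ) (m : ℕ) : ℝ := (volume (B ∩ Set.Ico (m : ℝ) (m + 1))).toReal

/-- Points of attracting cycles contained in `(0,∞)`. -/
def AttractingPoint (y : ℝ) : Prop :=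
  0 < y ∧ 0 < Function.minimalPeriod f y ∧ |deriv (f^[Function.minimalPeriod f y]) y| < 1

/-- The points `x > 0` whose orbit converges to the cycle of `y`. -/
def Basin (y : ℝ) : Set ℝ :=
  {x | 0 < x ∧ ∃ j : ℕ, Tendsto (fun k : ℕ => f^[k * Function.minimalPeriod f y + j] x) atTop (𝓝 y)}

/-- For every measurable set `B` which is completely invariant under `f` on `(0,∞)` there is `D` such
that the measure of `B ∩ [m, m+1)` differs from `D` by at most `2 * 10^7 / m^(1/2000)`, for all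
integers `m ≥ 1`; this applies to the basin of every attracting cycle, with `D > 0`. -/
theorem result :
    (∀ B : Set ℝ, Invariant B → ∃ D : ℝ, 0 ≤ D ∧ D ≤ 1 ∧
      ∀ m : ℕ, 1 ≤ m → |share B m - D| ≤ 2 * 10 ^ 7 / (m : ℝ) ^ (1 / 2000 : ℝ)) ∧
    ∀ y : ℝ, AttractingPoint y → Invariant (Basin y) ∧ ∃ D : ℝ, 0 < D ∧ D ≤ 1 ∧
      ∀ m : ℕ, 1 ≤ m → |share (Basin y) m - D| ≤ 2 * 10 ^ 7 / (m : ℝ) ^ (1 / 2000 : ℝ) := by
  have main : ∀ B : Set ℝ, Invariant B → ∃ D : ℝ, Tendsto (share B) atTop (𝓝 D) ∧ 0 ≤ D ∧ D ≤ 1 ∧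
      ∀ m : ℕ, 1 ≤ m → |share B m - D| ≤ 2 * 10 ^ 7 / (m : ℝ) ^ (1 / 2000 : ℝ) := by
    intro B hB
    obtain ⟨D, hD, hr⟩ := Pool.Agent.TH237.CH.rate (B := B) hB
    refine ⟨D, hD, ge_of_tendsto' hD (Pool.Agent.W40.Ch.bb_nonneg B),
      le_of_tendsto' hD (Pool.Agent.W40.Ch.bb_le_one B), fun m hm => ?_⟩
    have h1 := hr m hm
    rw [Real.rpow_neg (Nat.cast_nonneg m), ← div_eq_mul_inv] at h1
    exact h1
  refine ⟨fun B hB => ?_, fun y hy => ?_⟩
  · obtain ⟨D, -, h1, h2, h3⟩ := main B hB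
    exact ⟨D, h1, h2, h3⟩
  · have hinv : Invariant (Basin y) := Pool.Agent.W40.Ch.basin_inv (y := y) hy.2.1
    obtain ⟨D, h0, h1, h2, h3⟩ := main (Basin y) hinv
    exact ⟨hinv, D, Pool.Agent.W40.Ch.dens_pos hinv (Pool.Agent.W40.Ch.basin_pos hy) h0, h2, h3⟩

end Pool.Agent.Results.MP_a247fa_nt.BasinPowerRate
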