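import Pool.Agent.H488R2.CH.Structure
import Pool.Agent.TH930.SP.Loc

/-!
Chamberland's real extension `f` of the `3x+1` map: where the attracting cycles contract. The integers
`m` such that some attracting cycle in `(0,∞)` has a point `x` with `|f'(x)| < 1` within `1/2` of `m`, and
`m` is odd or `x ≥ m`, are sparse in all intervals, with an exponent strictly below the entropy
exponent; every attracting cycle which has no such point contracts only just below even integers.
-/

set_option autoImplicit false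

namespace Pool.Agent.Results.MP_a247fa_nt.ContractionSparsity

/-- Chamberland's map. -/
noncomputable def f (x : ℝ) : ℝ := x + 1 / 4 - (2 * x + 1) / 4 * Real.cos (Real.pi * x)

/-- The `3x+1` map. -/
def T (n : ℕ) : ℕ := if n % 2 = 0 then n / 2 else (3 * n + 1) / 2

/-- `x` is a point of an attracting cycle of `f` contained in `(0,∞)`. -/
def AttractingPoint (x : ℝ) : Prop :=
  0 < x ∧ 0 < Function.minimalPeriod f x ∧ |deriv (f^[Function.minimalPeriod f x]) x| < 1

/-- Some attracting cycle contracts near `m`: it has a point `x` with `|f'(x)| < 1` and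
`|x - m| ≤ 1/2`, where `x ≥ m` if `m` is even. -/
def ContractsNear (m : ℕ) : Prop :=
  ∃ x : ℝ, AttractingPoint x ∧ |deriv f x| < 1 ∧ |x - m| ≤ 1 / 2 ∧ (m % 2 = 0 → (m : ℝ) ≤ x)

open H488R2.CH in
theorem f_eq : f = F := by
  funext x
  unfold f F
  norm_num

open H488R2.CH in
theorem T_eq : T = H488R2.CH.T := rfl

theorem T_Td (n : ℕ) : Pool.Agent.H499R2.ND.Td 1 (n : ℤ) = ((T n : ℕ) : ℤ) := by
  unfold Pool.Agent.H499R2.ND.Td T
  rcases Nat.mod_two_eq_zero_or_one n with h | h
  · rw [if_pos (by omega), if_pos h]; omega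
  · rw [if_neg (by omega), if_neg (by omega)]; omega

theorem iter_Td (n k : ℕ) : (Pool.Agent.H499R2.ND.Td 1)^[k] (n : ℤ) = ((T^[k] n : ℕ) : ℤ) := by
  induction k with
  | zero => rfl
  | succ k ih =>
    rw [Function.iterate_succ_apply', Function.iterate_succ_apply', ih, T_Td]

/-- the width of a trap interval is less than `1/3` -/
theorem wid_lt {n : ℕ} (hn : 1 ≤ n) : H488R2.CH.wid n < 1 / 3 := by
  have h1 : (1 : ℝ) ≤ n := by exact_mod_cast hn
  unfold H488R2.CH.wid
  split_ifs
  · rw [div_lt_div_iff₀ (by positivity) (by norm_num)]; linarith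
  · rw [div_lt_div_iff₀ (by positivity) (by norm_num)]; linarith

open H488R2.CH in
/-- If some attracting cycle contracts near `m` then `m` is a periodic point of the `3x+1` map, and the
attracting cycle stays in the trap intervals of the cycle of `m`. -/
theorem periodic_of {m : ℕ} (h : ContractsNear m) :
    1 ≤ m ∧ ∃ p : ℕ, 0 < p ∧ T^[p] m = m := by
  obtain ⟨x, ⟨h0, hp, -⟩, hd, hm, hev⟩ := h
  rw [f_eq] at hp hd
  rw [(hasDerivAt_F x).deriv] at hd
  have hx : F^[Function.minimalPeriod F x] x = x := Function.iterate_minimalPeriod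
  obtain ⟨hm1, hm2⟩ := abs_le.1 hm
  rcases local_dichotomy h0 hp hx hd with ⟨n, hn, hI⟩ | ⟨n, hn2, hn1, hxn, hlt, -⟩
  · have hw := wid_lt hn
    obtain ⟨a1, a2⟩ := hI
    have hmn : m = n := by
      have b1 : (m : ℝ) < n + 1 := by linarith
      have b2 : (n : ℝ) < m + 1 := by linarith
      have b3 : m < n + 1 := by exact_mod_cast b1
      have b4 : n < m + 1 := by exact_mod_cast b2
      omega
    rw [hmn]
    have h3 := shadow_of_mem hx hn ⟨a1, a2⟩
    exact ⟨hn, _, hp, h3.1⟩
  · exfalso
    have hn' : (2 : ℝ) ≤ n := by exact_mod_cast hn1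
    have hd2 : (n : ℝ) - x < 1 / 6 := by nlinarith
    have b1 : (m : ℝ) < n + 1 := by linarith
    have b2 : (n : ℝ) < m + 1 := by linarith
    have b3 : m < n + 1 := by exact_mod_cast b1
    have b4 : n < m + 1 := by exact_mod_cast b2
    have hmn : m = n := by omega
    have := hev (by omega)
    rw [hmn] at this
    linarith

/-- **Main theorem.** (1) There are `η` strictly below the base-two binary entropy `0.94995...` of
`log 2 / log 3` and `C` such that for all real `y` and `R ≥ 1` at most `C R ^ η` of the integers `m` with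
`|m - y| ≤ R` have an attracting cycle that contracts near `m`. (2) All these `m` lie on cycles of the
`3x+1` map. (3) A point `x` with `|f'(x)| < 1` of an attracting cycle is at distance at most `1/2` from an
integer near which the cycle contracts, or at distance less than `3 / (8 n + 4)` below an even integer
`n`. -/
theorem result :
    (∃ η C : ℝ, η < Real.binEntropy (Real.log 2 / Real.log 3) / Real.log 2 ∧
      ∀ y R : ℝ, 1 ≤ R → ∀ S : Finset ℕ, (∀ m ∈ S, ContractsNear m ∧ |(m : ℝ) - y| ≤ R) →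
        (S.card : ℝ) ≤ C * R ^ η) ∧
    (∀ m : ℕ, ContractsNear m → 1 ≤ m ∧ ∃ p : ℕ, 0 < p ∧ T^[p] m = m) ∧
    (∀ x : ℝ, AttractingPoint x → |deriv f x| < 1 →
      (∃ m : ℕ, ContractsNear m ∧ |x - m| ≤ 1 / 2) ∨
      (∃ n : ℕ, n % 2 = 0 ∧ 2 ≤ n ∧ x < n ∧ (n : ℝ) - x < 3 / (8 * n + 4))) := by
  refine ⟨?_, fun m hm => periodic_of hm, ?_⟩
  · obtain ⟨η, A, -, hη, -, h⟩ := Pool.Agent.TH930.SP.sparse_loc
    refine ⟨η, A, hη, ?_⟩
    intro y R hR S hS
    have h1 := h 1 odd_one _ (Pool.Agent.H319R2.G.tame_periodic _) y R hR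
      (S.image (fun n : ℕ => (n : ℤ))) (by
      intro x hx
      rw [Finset.mem_image] at hx
      obtain ⟨m, hm, rfl⟩ := hx
      obtain ⟨h1, h2⟩ := hS m hm
      obtain ⟨-, p, hp, hpm⟩ := periodic_of h1
      refine ⟨⟨p, hp, ?_⟩, ?_⟩
      · show (Pool.Agent.H499R2.ND.Td 1)^[p] (m : ℤ) = m
        rw [iter_Td, hpm]
      · rw [Int.cast_natCast]; exact h2)
    rw [Int.cast_one, abs_one, Real.one_rpow, mul_one,
      Finset.card_image_of_injective _ Nat.cast_injective] at h1
    exact h1
  · intro x hx hd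
    obtain ⟨h0, hp, -⟩ := id hx
    have hd' := hd
    rw [f_eq] at hp hd'
    rw [(H488R2.CH.hasDerivAt_F x).deriv] at hd'
    have hxp : H488R2.CH.F^[Function.minimalPeriod H488R2.CH.F x] x = x :=
      Function.iterate_minimalPeriod
    rcases H488R2.CH.local_dichotomy h0 hp hxp hd' with ⟨n, hn, hI⟩ | ⟨n, hn2, hn1, hxn, hlt, -⟩
    · left
      have hw := wid_lt hn
      obtain ⟨a1, a2⟩ := hI
      have h3 : |x - n| ≤ 1 / 2 := by rw [abs_le]; constructor <;> linarith
      exact ⟨n, ⟨x, hx, hd, h3, fun _ => a1⟩, h3⟩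
    · right
      refine ⟨n, hn2, hn1, hxn, ?_⟩
      rw [lt_div_iff₀ (by positivity)]
      nlinarith

end Pool.Agent.Results.MP_a247fa_nt.ContractionSparsity
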