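import Pool.Agent.H934R2.Ch.Conv
import Pool.Agent.TH930.LT.Main

set_option autoImplicit false

/-!
Chamberland's real extension `f` of the Collatz map: the intervals `J n = [n, n + 5/(6(2n+1))]`, which
for odd `n` contain the critical point of `f` in `(n, n + 1/2)`, come down in logarithmic time.
-/

namespace Pool.Agent.Results.MP_a247fa_nt.LogTimeShadowing

open Pool.Agent.H934R2.Ch (T T_iter_pos shadow crit_in_trap exists_unique_odd)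

/-- Chamberland's map -/
noncomputable def f (x : ℝ) : ℝ := x + 1 / 4 - (2 * x + 1) / 4 * Real.cos (Real.pi * x)

/-- the binary entropy function, in bits -/
noncomputable def H (p : ℝ) : ℝ := Real.binEntropy p / Real.log 2

/-- The interval `J n = [n, n + 5/(6(2n+1))]`. -/
def J (n : ℕ) : Set ℝ := Set.Icc (n : ℝ) (n + 5 / (6 * (2 * (n : ℝ) + 1)))

/-- For some `m` with `1 ≤ m ≤ y` and some `k ≤ B log (n / m)` the iterate `f^k` maps the set `S` into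
`J m`. -/
def Lands (B y : ℝ) (n : ℕ) (S : Set ℝ) : Prop :=
  ∃ m k : ℕ, 1 ≤ m ∧ (m : ℝ) ≤ y ∧ (k : ℝ) ≤ B * Real.log ((n : ℝ) / m) ∧ ∀ x ∈ S, f^[k] x ∈ J m

theorem lands_of {B y : ℝ} {n : ℕ} (hn : 1 ≤ n) (h : Pool.Agent.TH930.LT.Main.Descends B y n) :
    Lands B y n (J n) := by
  obtain ⟨k, h1, h2⟩ := h
  exact ⟨T^[k] n, k, T_iter_pos hn k, h1, h2, fun x hx => shadow hn hx k⟩

/-- There is a function `c(B)` such that for every `B > 2 / log (4/3)` there is `C` such that for all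
`X ≥ 2`, `y ≥ 1`, with `E = C (log X)^3 X / y^c(B)`:

(1) for all but `E` of the positive integers `n ≤ X` some `f^k`, `k ≤ B log (n / m)`, maps the interval
`J n` into `J m`, `1 ≤ m ≤ y`;

(2) for all but `E` of the odd positive integers `n ≤ X` some `f^k`, `k ≤ B log (n / m)`, maps the
critical point of `f` in `(n, n + 1/2)` into `J m`, `1 ≤ m ≤ y`.

Here `c(B) > 1 - H(p)` with `p = (log 2 - 1/B) / log 3` for all these `B`, and `c(B) > 1 - H(log_3 2)`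
for all large `B`. -/
theorem result :
    (∀ n : ℕ, n % 2 = 1 → ∃! x : ℝ, (n : ℝ) < x ∧ x < n + 1 / 2 ∧ deriv f x = 0) ∧
    ∃ (c : ℝ → ℝ) (B₁ : ℝ), (∀ B : ℝ, B₁ ≤ B → 1 - H (Real.log 2 / Real.log 3) < c B) ∧
    ∀ B : ℝ, 2 / Real.log (4 / 3) < B →
      1 - H ((Real.log 2 - 1 / B) / Real.log 3) < c B ∧
      ∃ C : ℝ, 0 < C ∧ ∀ X y : ℝ, 2 ≤ X → 1 ≤ y →
        ({n : ℕ | 1 ≤ n ∧ (n : ℝ) ≤ X ∧ ¬ Lands B y n (J n)}.ncard : ℝ) ≤
          C * Real.log X ^ 3 * (X / y ^ c B) ∧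
        ({n : ℕ | n % 2 = 1 ∧ (n : ℝ) ≤ X ∧ ∃ x : ℝ, (n : ℝ) < x ∧ x < n + 1 / 2 ∧ deriv f x = 0 ∧
            ¬ Lands B y n {x}}.ncard : ℝ) ≤
          C * Real.log X ^ 3 * (X / y ^ c B) := by
  refine ⟨fun n hn => exists_unique_odd n hn, ?_⟩
  obtain ⟨c, B₁, h1, h2⟩ := Pool.Agent.TH930.LT.Main.law
  refine ⟨c, B₁, h1, fun B hB => ?_⟩
  obtain ⟨h3, C, hC, h4⟩ := h2 B hB
  refine ⟨h3, C, hC, fun X y hX hy => ?_⟩
  have hfin : {n : ℕ | 1 ≤ n ∧ (n : ℝ) ≤ X ∧ ¬ Pool.Agent.TH930.LT.Main.Descends B y n}.Finite := by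
    apply (Set.finite_Iic ⌊X⌋₊).subset
    rintro n ⟨-, h2, -⟩
    exact Nat.le_floor h2
  constructor
  · refine le_trans ?_ (h4 X y hX hy)
    have hsub : {n : ℕ | 1 ≤ n ∧ (n : ℝ) ≤ X ∧ ¬ Lands B y n (J n)} ⊆
        {n : ℕ | 1 ≤ n ∧ (n : ℝ) ≤ X ∧ ¬ Pool.Agent.TH930.LT.Main.Descends B y n} := by
      rintro n ⟨g1, g2, g3⟩
      exact ⟨g1, g2, fun g4 => g3 (lands_of g1 g4)⟩
    exact_mod_cast Set.ncard_le_ncard hsub hfin
  · refine le_trans ?_ (h4 X y hX hy)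
    have hsub : {n : ℕ | n % 2 = 1 ∧ (n : ℝ) ≤ X ∧ ∃ x : ℝ, (n : ℝ) < x ∧ x < n + 1 / 2 ∧
          deriv f x = 0 ∧ ¬ Lands B y n {x}} ⊆
        {n : ℕ | 1 ≤ n ∧ (n : ℝ) ≤ X ∧ ¬ Pool.Agent.TH930.LT.Main.Descends B y n} := by
      rintro n ⟨g1, g2, x, g3, g4, g5, g6⟩
      refine ⟨by omega, g2, fun g7 => g6 ?_⟩
      obtain ⟨m, k, e1, e2, e3, e4⟩ := lands_of (by omega) g7
      refine ⟨m, k, e1, e2, e3, ?_⟩
      intro z hz
      rw [Set.mem_singleton_iff] at hz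
      rw [hz]
      exact e4 x (crit_in_trap g1 g3 g4 g5)
    exact_mod_cast Set.ncard_le_ncard hsub hfin

end Pool.Agent.Results.MP_a247fa_nt.LogTimeShadowing
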